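import Pool.Agent.H90.UniqProof

set_option autoImplicit false

namespace Pool.Agent.Results.MP_462cdc_an.NotStrict

open Pool.Agent.H90.UniqDefs

/-- One non strictly convex Banach space has `U_G` dense and non-meagre for every compact `G`. -/
theorem result (𝕜 : Type) [RCLike 𝕜] :
    ¬ ∀ (E : Type) [NormedAddCommGroup E] [NormedSpace 𝕜 E] [CompleteSpace E],
      (∀ G : Set E, IsCompact G → Dense (UniqSet G) ∧ ¬ IsMeagre (UniqSet G)) → StrConv 𝕜 E :=
  Pool.Agent.H90.UniqProof.final

end Pool.Agent.Results.MP_462cdc_an.NotStrict
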